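import Pool.Agent.H62.PR.Par0

/-!
# Part NEG of project PR (helper62): `-1` is a square modulo the primes in `S`
-/

set_option autoImplicit false
set_option linter.all false

open Polynomial IsDedekindDomain NumberField
open scoped Classical

namespace Pool.Agent.H89.PR

open Pool.Agent.H62.PR
open Pool.Agent.N874.PP (Tup chA chB gq tau Two Ev Sq1 U0)
open Pool.Agent.N922.PQ

/-- `-1` is a square modulo `Q`. -/
theorem exists_sq_neg_one {Q : ℤ} (hQ : IsPr Q) (h8 : Q % 8 = 1) : ∃ c : ℤ, Q ∣ 1 + c ^ 2 := by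
  obtain ⟨n, hn⟩ := Int.eq_ofNat_of_zero_le hQ.1.le
  subst hn
  have hp : n.Prime := Nat.prime_iff_prime_int.2 hQ.2
  haveI : Fact n.Prime := ⟨hp⟩
  have h1 : IsSquare (-1 : ZMod n) := by
    rw [ZMod.exists_sq_eq_neg_one_iff]
    omega
  obtain ⟨c, hc⟩ := h1
  obtain ⟨z, rfl⟩ := ZMod.intCast_surjective c
  refine ⟨z, ?_⟩
  have h2 : ((1 + z ^ 2 : ℤ) : ZMod n) = 0 := by
    push_cast
    rw [sq, ← hc]
    ring
  exact (ZMod.intCast_zmod_eq_zero_iff_dvd _ _).1 h2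

theorem sq1_neg {L : Type} [Field L] [NumberField L] {Q : ℤ} (hQ : IsPr Q) (h8 : Q % 8 = 1)
    {𝔓 : HeightOneSpectrum (𝓞 L)} (ho : Ov Q 𝔓) {y : L} (h : Sq1 𝔓 y) : Sq1 𝔓 (-y) := by
  obtain ⟨c, hc⟩ := exists_sq_neg_one hQ h8
  obtain ⟨s, hs⟩ := h
  have hmem : ((1 + c ^ 2 : ℤ) : 𝓞 L) ∈ 𝔓.asIdeal := by
    obtain ⟨k, hk⟩ := hc
    rw [hk]
    push_cast
    exact Ideal.mul_mem_right _ _ ho
  have hv : 𝔓.valuation L ((1 + c ^ 2 : ℤ) : L) < 1 := by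
    have h1 := (Pool.Agent.N301.PQ.val_lt_mem (L := L) 𝔓 ((1 + c ^ 2 : ℤ) : 𝓞 L)).2 hmem
    simpa using h1
  have hvs : 𝔓.valuation L (s ^ 2) = 𝔓.valuation L y := by
    have e : s ^ 2 = y - (y - s ^ 2) := by ring
    rw [e]
    exact Valuation.map_sub_eq_of_lt_left _ hs
  have hy0 : 0 < 𝔓.valuation L y := lt_of_le_of_lt zero_le hs
  refine ⟨(c : L) * s, ?_⟩
  have e : -y - ((c : L) * s) ^ 2 = -(y - s ^ 2) - ((1 + c ^ 2 : ℤ) : L) * s ^ 2 := by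
    push_cast
    ring
  rw [e, Valuation.map_neg]
  refine lt_of_le_of_lt (Valuation.map_sub _ _ _) (max_lt ?_ ?_)
  · rw [Valuation.map_neg]
    exact hs
  · rw [map_mul, hvs]
    calc 𝔓.valuation L ((1 + c ^ 2 : ℤ) : L) * 𝔓.valuation L y < 1 * 𝔓.valuation L y :=
          mul_lt_mul_of_pos_right hv hy0
      _ = _ := one_mul _

theorem neg : S_NEG := by
  intro L _ _ θ S hS 𝔮 hq α
  funext Q
  have hpr := hS Q Q.2
  have ho := hq Q Q.2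
  have key : Sq1 (𝔮 Q) (α * (((Q : ℤ) : L) * -θ)) ↔ Sq1 (𝔮 Q) (α * (((Q : ℤ) : L) * θ)) := by
    constructor
    · intro h
      have h1 := sq1_neg hpr.1 hpr.2 ho h
      have e : -(α * (((Q : ℤ) : L) * -θ)) = α * (((Q : ℤ) : L) * θ) := by ring
      rwa [e] at h1
    · intro h
      have h1 := sq1_neg hpr.1 hpr.2 ho h
      have e : -(α * (((Q : ℤ) : L) * θ)) = α * (((Q : ℤ) : L) * -θ) := by ring
      rwa [e] at h1
  have hU : U0 (𝔮 Q) (((Q : ℤ) : L) * -θ) α ↔ U0 (𝔮 Q) (((Q : ℤ) : L) * θ) α := by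
    unfold U0
    rw [key]
  refine Prod.ext rfl ?_
  change (if U0 (𝔮 Q) (((Q : ℤ) : L) * -θ) α then (0 : ZMod 2) else 1) =
    if U0 (𝔮 Q) (((Q : ℤ) : L) * θ) α then 0 else 1
  by_cases h : U0 (𝔮 Q) (((Q : ℤ) : L) * θ) α
  · rw [if_pos h, if_pos (hU.2 h)]
  · rw [if_neg h, if_neg (fun h' => h (hU.1 h'))]

end Pool.Agent.H89.PR
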