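import Pool.Agent.H62.PR.Par0
import Pool.Agent.H6.PR.Lam
import Pool.Agent.H89.PR.Neg

/-!
# Part PARA of project PR (helper62): the parities of the 2-Selmer ranks of the twists by `D`
and by `-D`
-/

set_option autoImplicit false
set_option linter.all false

open Polynomial IsDedekindDomain WeierstrassCurve WeierstrassCurve.Affine NumberField
open Pool.Agent.TH115.GD
open scoped Classical IntermediateField

namespace Pool.Agent.H89.PR

open Pool.Agent.H62.PR
open Pool.Agent.H6.PR (loc2_sq absNorm_sq dt_ne psi_mul ev_mul dt_nt mset_mul mset_one psi_one Lam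
  lam_iso prod_symm lam_card lam)
open Pool.Agent.N874.PP (Tup chA chB gq tau Two Ev Sq1 U0 sW IsBeta Rt)
open Pool.Agent.N874.PM (PLoc Lies SelR ShaR)
open Pool.Agent.N922.PQ

/-! ### Linear algebra -/

section lin

variable {ι : Type} [Fintype ι]

/-- The bilinear form of the hyperbolic quadratic form. -/
noncomputable def bil (u v : ι → ZMod 2 × ZMod 2) : ZMod 2 :=
  ∑ i, ((u i).1 * (v i).2 + (u i).2 * (v i).1)

noncomputable def bilF (ι : Type) [Fintype ι] :
    LinearMap.BilinForm (ZMod 2) (ι → ZMod 2 × ZMod 2) :=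
  LinearMap.mk₂ (ZMod 2) bil
    (by intro u u' v; simp only [bil, ← Finset.sum_add_distrib]
        refine Finset.sum_congr rfl fun i _ => ?_
        simp only [Pi.add_apply, Prod.fst_add, Prod.snd_add]; ring)
    (by intro c u v; simp only [bil, smul_eq_mul, Finset.mul_sum]
        refine Finset.sum_congr rfl fun i _ => ?_
        simp only [Pi.smul_apply, Prod.smul_fst, Prod.smul_snd, smul_eq_mul]; ring)
    (by intro u v v'; simp only [bil, ← Finset.sum_add_distrib]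
        refine Finset.sum_congr rfl fun i _ => ?_
        simp only [Pi.add_apply, Prod.fst_add, Prod.snd_add]; ring)
    (by intro c u v; simp only [bil, smul_eq_mul, Finset.mul_sum]
        refine Finset.sum_congr rfl fun i _ => ?_
        simp only [Pi.smul_apply, Prod.smul_fst, Prod.smul_snd, smul_eq_mul]; ring)

theorem bilF_apply (u v : ι → ZMod 2 × ZMod 2) : bilF ι u v = bil u v := rfl

theorem bil_comm (u v : ι → ZMod 2 × ZMod 2) : bil u v = bil v u := by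
  unfold bil
  refine Finset.sum_congr rfl fun i _ => ?_
  ring

theorem bilF_symm : (bilF ι).IsRefl := by
  intro u v h
  rw [bilF_apply] at h ⊢
  rw [bil_comm]
  exact h

theorem bilF_nondeg : (bilF ι).Nondegenerate := by
  have key : ∀ u : ι → ZMod 2 × ZMod 2, (∀ v, bil u v = 0) → u = 0 := by
    intro u hu
    funext i
    have h1 := hu (Pi.single i (0, 1))
    have h2 := hu (Pi.single i (1, 0))
    unfold bil at h1 h2
    rw [Finset.sum_eq_single i] at h1 h2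
    · simp at h1 h2
      exact Prod.ext h1 h2
    · intro j _ hj
      simp [Pi.single_eq_of_ne hj]
    · intro h
      exact absurd (Finset.mem_univ i) h
    · intro j _ hj
      simp [Pi.single_eq_of_ne hj]
    · intro h
      exact absurd (Finset.mem_univ i) h
  constructor
  · intro u hu
    exact key u hu
  · intro u hu
    refine key u fun v => ?_
    rw [bil_comm]
    exact hu v

/-- The quadratic form. -/
noncomputable def qf (u : ι → ZMod 2 × ZMod 2) : ZMod 2 := ∑ i, (u i).1 * (u i).2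

theorem qf_add (u v : ι → ZMod 2 × ZMod 2) : qf (u + v) = qf u + qf v + bil u v := by
  unfold qf bil
  rw [← Finset.sum_add_distrib, ← Finset.sum_add_distrib]
  refine Finset.sum_congr rfl fun i _ => ?_
  simp only [Pi.add_apply, Prod.fst_add, Prod.snd_add]
  ring

/-- The orthogonal complement of a big subgroup is small. -/
theorem orth_small (Λ Λt : AddSubgroup (ι → ZMod 2 × ZMod 2))
    (h : 2 ^ Fintype.card ι ≤ Nat.card Λ) (ho : ∀ u ∈ Λt, ∀ v ∈ Λ, bil u v = 0) :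
    Nat.card Λt ≤ 2 ^ Fintype.card ι := by
  let W := AddSubgroup.toZModSubmodule 2 Λ
  let Wt := AddSubgroup.toZModSubmodule 2 Λt
  have hle : Wt ≤ (bilF ι).orthogonal W := by
    intro u hu
    rw [LinearMap.BilinForm.mem_orthogonal_iff]
    intro v hv
    change bil v u = 0
    rw [bil_comm]
    exact ho u hu v hv
  have hfr := LinearMap.BilinForm.finrank_orthogonal (B := bilF ι) bilF_nondeg W
  have hV : Module.finrank (ZMod 2) (ι → ZMod 2 × ZMod 2) = 2 * Fintype.card ι := by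
    rw [Module.finrank_pi_fintype]
    simp [Module.finrank_prod, mul_comm]
  have hcW : Nat.card W = 2 ^ Module.finrank (ZMod 2) W := by
    have := Module.natCard_eq_pow_finrank (K := ZMod 2) (V := W)
    rwa [Nat.card_zmod] at this
  have hcWt : Nat.card Wt = 2 ^ Module.finrank (ZMod 2) Wt := by
    have := Module.natCard_eq_pow_finrank (K := ZMod 2) (V := Wt)
    rwa [Nat.card_zmod] at this
  have h1 : Fintype.card ι ≤ Module.finrank (ZMod 2) W := by
    have h2 : 2 ^ Fintype.card ι ≤ 2 ^ Module.finrank (ZMod 2) W := by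
      rw [← hcW]; exact h
    exact (Nat.pow_le_pow_iff_right (by norm_num)).1 h2
  have h2 : Module.finrank (ZMod 2) Wt ≤ Fintype.card ι := by
    have h3 := Submodule.finrank_mono hle
    rw [hfr, hV] at h3
    omega
  change Nat.card Wt ≤ _
  rw [hcWt]
  exact Nat.pow_le_pow_right (by norm_num) h2

end lin

/-! ### The subgroups -/

section ar

variable {L : Type} [Field L] [NumberField L] {a b : ℤ} {θ : L} {X : ℕ} {S T : Finset ℤ}
  {s A B B' : ℤ → ℤ} {𝔮 : ℤ → HeightOneSpectrum (𝓞 L)}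

theorem isCub_neg (h : IsCub a b θ) : IsCub a (-b) (-θ) where
  root := by
    have := h.root
    push_cast
    linear_combination -this
  rank := h.rank
  gen := by
    intro x
    obtain ⟨r, s, t, rfl⟩ := h.gen x
    exact ⟨r, -s, t, by push_cast; ring⟩

theorem mset_sub (α : L) (h : α ∈ Mset a b θ S 𝔮) : α ∈ Mt S 𝔮 := ⟨h.1, h.2.1, h.2.2.2⟩

theorem mt_mul {α β : L} (hα : α ∈ Mt S 𝔮) (hβ : β ∈ Mt S 𝔮) : α * β ∈ Mt S 𝔮 := by
  obtain ⟨h1, h2, h3⟩ := hα
  obtain ⟨h1', h2', h3'⟩ := hβ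
  refine ⟨mul_ne_zero h1 h1', ?_, fun 𝔓 h𝔓 => ev_mul 𝔓 _ _ (h3 𝔓 h𝔓) (h3' 𝔓 h𝔓)⟩
  rw [map_mul]
  exact h2.mul h2'

/-- The image of `Mt`. -/
noncomputable def Lt (d : Dt a b θ X S T s A B 𝔮) :
    AddSubgroup ({Q : ℤ // Q ∈ S} → ZMod 2 × ZMod 2) where
  carrier := {l | ∃ α ∈ Mt S 𝔮, psi θ S 𝔮 α = l}
  add_mem' := by
    rintro _ _ ⟨α, hα, rfl⟩ ⟨β, hβ, rfl⟩
    exact ⟨α * β, mt_mul hα hβ, psi_mul d hα.1 hβ.1⟩
  zero_mem' := ⟨1, mset_sub _ (mset_one d), psi_one d⟩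
  neg_mem' := by
    rintro _ ⟨α, hα, rfl⟩
    refine ⟨α, hα, ?_⟩
    rw [eq_neg_iff_add_eq_zero]
    funext Q
    exact Prod.ext (CharTwo.add_self_eq_zero _) (CharTwo.add_self_eq_zero _)

theorem add_self_zero {ι : Type} (u : ι → ZMod 2 × ZMod 2) : u + u = 0 := by
  funext Q
  exact Prod.ext (CharTwo.add_self_eq_zero _) (CharTwo.add_self_eq_zero _)

/-- Many elements of `Mt`. -/
theorem exists_family (hSUN : S_SUN) (d : Dt a b θ X S T s A B 𝔮)
    (hinj : ∀ α ∈ Mt S 𝔮, psi θ S 𝔮 α = 0 → IsSquare α) :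
    ∃ y : Finset (Fin (S.card + 1)) → L, (∀ c, y c ∈ Mt S 𝔮) ∧
      (∀ c c', ∃ z : L, y (symmDiff c c') = y c * y c' * z ^ 2) ∧
      Function.Injective fun c => psi θ S 𝔮 (y c) := by
  have hI : S_INT := Pool.Agent.N849.PQ.int
  obtain ⟨n, hn⟩ : ∃ n, n = S.card := ⟨_, rfl⟩
  rw [← hn]
  let e : Fin n ≃ {Q : ℤ // Q ∈ S} := (Fintype.equivFinOfCardEq (by
    rw [Fintype.card_coe, hn])).symm
  have hqinj : Function.Injective fun i => 𝔮 (e i) := by
    intro i j hij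
    have h1 := (d.hq (e i) (e i).2).1
    have hij' : 𝔮 (e i) = 𝔮 (e j) := hij
    rw [hij'] at h1
    exact e.injective (Subtype.ext (below_unique (d.hS _ (e i).2).1 (d.hS _ (e j).2).1 h1
      (d.hq (e j) (e j).2).1))
  obtain ⟨x, hx, hind⟩ := hSUN L d.hc.rank n (fun i => 𝔮 (e i)) hqinj (fun i =>
    absNorm_sq hI d.hc d.hF.sq (d.hS _ (e i).2).1 (d.hF.rb _ (e i).2) (fam_ns d.hS d.hF (e i).2)
      (d.hq _ (e i).2).1 (d.hq _ (e i).2).2)
  let y : Finset (Fin (n + 1)) → L := fun c => ∏ i ∈ c, x i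
  have hy0 : ∀ c, y c ≠ 0 := fun c => Finset.prod_ne_zero_iff.2 fun i _ => (hx i).1
  have hyN : ∀ c, IsSquare (Algebra.norm ℚ (y c)) := by
    intro c
    simp only [y]
    rw [map_prod]
    clear hinj
    induction c using Finset.induction_on with
    | empty => exact IsSquare.one
    | insert i c hi ih =>
      rw [Finset.prod_insert hi]
      exact (hx i).2.1.mul ih
  have hyE : ∀ c, ∀ 𝔓 : HeightOneSpectrum (𝓞 L), (∀ Q ∈ S, 𝔓 ≠ 𝔮 Q) → Ev 𝔓 (y c) := by
    intro c 𝔓 h𝔓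
    refine ⟨1, ?_⟩
    simp only [y]
    rw [map_prod, map_one, one_pow]
    exact Finset.prod_eq_one fun i _ => (hx i).2.2 𝔓 fun j => h𝔓 _ (e j).2
  have hsymm : ∀ c c', y (symmDiff c c') = y c * y c' * (∏ i ∈ c ∩ c', x i)⁻¹ ^ 2 := by
    intro c c'
    have h1 : y c * y c' = y (symmDiff c c') * (∏ i ∈ c ∩ c', x i) ^ 2 := prod_symm x c c'
    rw [h1, mul_assoc, ← mul_pow, mul_inv_cancel₀ (hy0 (c ∩ c')), one_pow, mul_one]
  have hyM : ∀ c, y c ∈ Mt S 𝔮 := fun c => ⟨hy0 c, hyN c, hyE c⟩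
  refine ⟨y, hyM, fun c c' => ⟨_, hsymm c c'⟩, ?_⟩
  intro c c' h
  have h1 : psi θ S 𝔮 (y c) = psi θ S 𝔮 (y c') := h
  have h2 : psi θ S 𝔮 (y c * y c') = 0 := by
    rw [psi_mul d (hy0 _) (hy0 _), h1]
    exact add_self_zero _
  obtain ⟨r, hr⟩ := hinj _ (mt_mul (hyM c) (hyM c')) h2
  have h4 : IsSquare (∏ i ∈ symmDiff c c', x i) := by
    refine ⟨r * (∏ i ∈ c ∩ c', x i)⁻¹, ?_⟩
    change y (symmDiff c c') = _
    rw [hsymm, hr]
    ring
  have h5 := hind _ h4
  exact symmDiff_eq_bot.1 h5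

/-- The value of the quadratic form and isotropy at `2`. -/
theorem qf_psi (hREC2 : S_REC2) (d : Dt a b θ X S T s A B 𝔮) {α : L} (hα : α ∈ Mt S 𝔮) :
    qf (psi θ S 𝔮 α) = 0 ↔ IsoAt d.hc 2 α := by
  rw [← hREC2 L a b θ X S T s A B d.hc d.hS d.hT d.hF 𝔮 d.hq α hα]
  have e1 : qf (psi θ S 𝔮 α) = ∑ Q ∈ S,
      (if ¬ Ev (𝔮 Q) α ∧ ¬ Sq1 (𝔮 Q) (α * ((Q : L) * θ)) then (1 : ZMod 2) else 0) := by
    unfold qf
    rw [← Finset.sum_coe_sort S]
    refine Finset.sum_congr rfl fun Q _ => ?_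
    simp only [psi, cl]
    by_cases he : Ev (𝔮 Q) α
    · rw [if_pos he, zero_mul, if_neg (fun h => h.1 he)]
    · by_cases hs : Sq1 (𝔮 Q) (α * (((Q : ℤ) : L) * θ))
      · have hu : U0 (𝔮 Q) (((Q : ℤ) : L) * θ) α := ⟨fun h => absurd h he, fun _ => hs⟩
        rw [if_neg he, if_pos hu, mul_zero, if_neg (fun h => h.2 hs)]
      · have hu : ¬ U0 (𝔮 Q) (((Q : ℤ) : L) * θ) α := fun h => hs (h.2 he)
        rw [if_neg he, if_neg hu, mul_one, if_pos ⟨he, hs⟩]
  rw [e1, Finset.sum_ite, Finset.sum_const_zero, add_zero, Finset.sum_const, nsmul_eq_mul,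
    mul_one]
  exact ZMod.natCast_eq_zero_iff_even

theorem zmod_two_eq {x y : ZMod 2} (h : x = 0 ↔ y = 0) : x = y := by
  revert x y
  decide

theorem para (hSUN : S_SUN) (hL2I : S_L2I) (hSEL : S_SEL) (hL2D : S_L2D) (hISQ : S_ISQ)
    (hREC2 : S_REC2) (hPARL : S_PARL) : S_PARA := by
  intro L _ _ a b θ X S T s A B B' 𝔮 hc hS hT hT' hF hF' ha hq hinj J D hD d d' hd hd'
  have hn := neg L θ S (fun Q hQ => ⟨(hS Q hQ).1, (hS Q hQ).2.1⟩) 𝔮 fun Q hQ => (hq Q hQ).1
  have d1 : Dt a b θ X S T s A B 𝔮 :=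
    { hc := hc, hS := hS, hT := hT, hF := hF, h4 := Or.inr ha, hq := hq
      inj := fun α hα h0 => hinj α (mset_sub _ hα) h0 }
  have d2 : Dt a (-b) (-θ) X S T s A B' 𝔮 :=
    { hc := isCub_neg hc, hS := hS, hT := hT', hF := hF', h4 := Or.inr ha
      hq := fun Q hQ => ⟨(hq Q hQ).1, by rw [Valuation.map_neg]; exact (hq Q hQ).2⟩
      inj := fun α hα h0 => hinj α (mset_sub _ hα) (by rw [← hn]; exact h0) }
  have hcard : Fintype.card {Q : ℤ // Q ∈ S} = S.card := Fintype.card_coe S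
  obtain ⟨y, hyM, hysymm, hyinj⟩ := exists_family hSUN d1 hinj
  have hnt1 := dt_nt d1
  have hnt2 := dt_nt d2
  -- closure properties of the conditions at `2`
  have hadd1 : ∀ c c', Loc2 a b θ (y c) → Loc2 a b θ (y c') → Loc2 a b θ (y (symmDiff c c')) := by
    intro c c' h1 h2
    obtain ⟨z, hz⟩ := hysymm c c'
    rw [hz]
    exact loc2_mul parts.plm hc hnt1 (loc2_mul parts.plm hc hnt1 h1 h2) (loc2_sq hc z)
  have hadd1' : ∀ c c', ¬ Loc2 a b θ (y c) → ¬ Loc2 a b θ (y c') →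
      Loc2 a b θ (y (symmDiff c c')) := by
    intro c c' h1 h2
    obtain ⟨z, hz⟩ := hysymm c c'
    rw [hz]
    exact loc2_mul parts.plm hc hnt1 (hL2I L a b θ hc hnt1 d1.h4 (y c) (y c') (hyM c).1 (hyM c').1
      (hyM c).2.1 (hyM c').2.1 h1 h2) (loc2_sq hc z)
  have hadd2' : ∀ c c', ¬ Loc2 a (-b) (-θ) (y c) → ¬ Loc2 a (-b) (-θ) (y c') →
      Loc2 a (-b) (-θ) (y (symmDiff c c')) := by
    intro c c' h1 h2
    obtain ⟨z, hz⟩ := hysymm c c'
    rw [hz]
    exact loc2_mul parts.plm d2.hc hnt2 (hL2I L a (-b) (-θ) d2.hc hnt2 d2.h4 (y c) (y c')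
      (hyM c).1 (hyM c').1 (hyM c).2.1 (hyM c').2.1 h1 h2) (loc2_sq d2.hc z)
  let C1 : Finset (Finset (Fin (S.card + 1))) := Finset.univ.filter fun c => Loc2 a b θ (y c)
  let C2 : Finset (Finset (Fin (S.card + 1))) :=
    Finset.univ.filter fun c => Loc2 a (-b) (-θ) (y c)
  have hm1 : ∀ c, c ∈ C1 ↔ Loc2 a b θ (y c) := by intro c; simp [C1]
  have hm2 : ∀ c, c ∈ C2 ↔ Loc2 a (-b) (-θ) (y c) := by intro c; simp [C2]
  have hc1 : 2 ^ S.card ≤ C1.card := by
    have htot : (Finset.univ : Finset (Finset (Fin (S.card + 1)))).card = 2 ^ (S.card + 1) := by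
      simp
    by_cases hall : ∀ c, c ∈ C1
    · have h1 : C1 = Finset.univ := Finset.eq_univ_iff_forall.2 hall
      rw [h1, htot]
      exact Nat.pow_le_pow_right (by norm_num) (Nat.le_succ _)
    · push Not at hall
      obtain ⟨c0, hc0⟩ := hall
      have h1 : C1ᶜ.card ≤ C1.card := by
        refine Finset.card_le_card_of_injOn (fun c => symmDiff c c0) ?_ ?_
        · intro c hc
          exact (hm1 _).2 (hadd1' c c0 (fun h => Finset.mem_compl.1 hc ((hm1 c).2 h))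
            (fun h => hc0 ((hm1 c0).2 h)))
        · intro c _ c' _ h
          exact symmDiff_left_injective c0 h
      have h2 := Finset.card_add_card_compl C1
      rw [Fintype.card_finset, Fintype.card_fin, pow_succ] at h2
      omega
  have hc12 : C1.card ≤ 2 * (C1 ∩ C2).card := by
    have hsplit : (C1 ∩ C2).card + (C1 \ C2).card = C1.card := Finset.card_inter_add_card_sdiff _ _
    by_cases hall : C1 \ C2 = ∅
    · rw [hall, Finset.card_empty] at hsplit
      omega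
    · obtain ⟨c0, hc0⟩ := Finset.nonempty_iff_ne_empty.2 hall
      obtain ⟨h1, h2⟩ := Finset.mem_sdiff.1 hc0
      have h3 : (C1 \ C2).card ≤ (C1 ∩ C2).card := by
        refine Finset.card_le_card_of_injOn (fun c => symmDiff c c0) ?_ ?_
        · intro c hc
          obtain ⟨h4, h5⟩ := Finset.mem_sdiff.1 hc
          refine Finset.mem_inter.2 ⟨(hm1 _).2 (hadd1 c c0 ((hm1 c).1 h4) ((hm1 c0).1 h1)),
            (hm2 _).2 (hadd2' c c0 (fun h => h5 ((hm2 c).2 h)) (fun h => h2 ((hm2 c0).2 h)))⟩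
        · intro c _ c' _ h
          exact symmDiff_left_injective c0 h
      omega
  -- the intersection is big
  have hinter : 2 ^ Fintype.card {Q : ℤ // Q ∈ S} ≤
      2 * Nat.card (Lam d1 ⊓ Lam d2 : AddSubgroup ({Q : ℤ // Q ∈ S} → ZMod 2 × ZMod 2)) := by
    rw [hcard]
    have hle : (C1 ∩ C2).card ≤
        Nat.card (Lam d1 ⊓ Lam d2 : AddSubgroup ({Q : ℤ // Q ∈ S} → ZMod 2 × ZMod 2)) := by
      rw [← Fintype.card_coe (C1 ∩ C2), ← Nat.card_eq_fintype_card]
      have hmem : ∀ c : (C1 ∩ C2 : Finset _), psi θ S 𝔮 (y c) ∈ Lam d1 ⊓ Lam d2 := by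
        intro c
        obtain ⟨h1, h2⟩ := Finset.mem_inter.1 c.2
        refine ⟨⟨y c, ⟨(hyM c).1, (hyM c).2.1, (hm1 c).1 h1, (hyM c).2.2⟩, rfl⟩,
          ⟨y c, ⟨(hyM c).1, (hyM c).2.1, (hm2 c).1 h2, (hyM c).2.2⟩, hn _⟩⟩
      refine Nat.card_le_card_of_injective (fun c => (⟨psi θ S 𝔮 (y c), hmem c⟩ :
        (Lam d1 ⊓ Lam d2 : AddSubgroup ({Q : ℤ // Q ∈ S} → ZMod 2 × ZMod 2)))) ?_
      intro c c' h
      exact Subtype.ext (hyinj (congrArg Subtype.val h))
    omega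
  -- they are different
  have hne : Lam d1 ≠ Lam d2 := by
    intro heq
    -- every element of `Mset` is a square at `2`
    have hsq2 : ∀ x ∈ Mset a b θ S 𝔮, Sq2 a b θ x := by
      intro x hx
      have h1 : psi θ S 𝔮 x ∈ Lam d2 := heq ▸ (⟨x, hx, rfl⟩ : psi θ S 𝔮 x ∈ Lam d1)
      obtain ⟨x', hx', h2⟩ := h1
      rw [hn] at h2
      have h3 : psi θ S 𝔮 (x * x') = 0 := by
        rw [psi_mul d1 hx.1 hx'.1, h2]
        exact add_self_zero _
      obtain ⟨r, hr⟩ := hinj _ (mt_mul (mset_sub _ hx) (mset_sub _ hx')) h3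
      have h4 : x = x' * (r * x'⁻¹) ^ 2 := by
        have hx0 := hx'.1
        field_simp
        rw [sq, ← hr]
      have h5 : Loc2 a (-b) (-θ) x := by
        rw [h4]
        exact loc2_mul parts.plm d2.hc hnt2 hx'.2.2.1 (loc2_sq d2.hc _)
      exact hL2D L a b θ hc hnt1 ha x hx.1 hx.2.1 hx.2.2.1 h5
    have horth : ∀ u ∈ Lt d1, ∀ v ∈ Lam d1, bil u v = 0 := by
      rintro _ ⟨x, hx, rfl⟩ _ ⟨z, hz, rfl⟩
      have h1 : qf (psi θ S 𝔮 (x * z)) = 0 ↔ qf (psi θ S 𝔮 x) = 0 := by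
        rw [qf_psi hREC2 d1 (mt_mul hx (mset_sub _ hz)), qf_psi hREC2 d1 hx]
        exact hISQ L a b θ hc hnt1 x z hx.1 hz.1 (hsq2 z hz)
      have h2 := zmod_two_eq h1
      have h3 : qf (psi θ S 𝔮 z) = 0 := lam_iso d1 _ ⟨z, hz, rfl⟩
      rw [psi_mul d1 hx.1 hz.1, qf_add, h3, add_zero] at h2
      exact left_eq_add.1 h2.symm
    have hsmall := orth_small (Lam d1) (Lt d1) (by rw [hcard]; exact lam_card hSUN hL2I d1) horth
    have hbig : 2 ^ (S.card + 1) ≤ Nat.card (Lt d1) := by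
      have h1 : Nat.card (Finset (Fin (S.card + 1))) = 2 ^ (S.card + 1) := by
        rw [Nat.card_eq_fintype_card, Fintype.card_finset, Fintype.card_fin]
      rw [← h1]
      refine Nat.card_le_card_of_injective (fun c => (⟨psi θ S 𝔮 (y c), ⟨y c, hyM c, rfl⟩⟩ :
        Lt d1)) ?_
      intro c c' h
      exact hyinj (congrArg Subtype.val h)
    rw [hcard] at hsmall
    have h2 : 2 ^ (S.card + 1) ≤ 2 ^ S.card := hbig.trans hsmall
    have h3 := (Nat.pow_le_pow_iff_right (by norm_num : 1 < 2)).1 h2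
    omega
  refine hPARL {Q : ℤ // Q ∈ S} (Lam d1) (Lam d2) (lam_iso d1) (lam_iso d2)
    (by rw [hcard]; exact lam_card hSUN hL2I d1) (by rw [hcard]; exact lam_card hSUN hL2I d2) hne
    hinter J d d' ?_ ?_
  · rw [← hd, hSEL L a b θ X S T s A B 𝔮 d1 J D hD]
    rfl
  · rw [← hd', hSEL L a (-b) (-θ) X S T s A B' 𝔮 d2 J D hD]
    rfl

end ar

end Pool.Agent.H89.PR
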